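import Pool.Agent.Y34.EL.All

/-!
# Functions of small gradient on groups with short paths in annuli (helper524)

`l : G → ℝ` is a proper length function such that two elements of an annulus `[r, r + D]` are joined
by walks of linear length in `[r - B, r + B]`.  Then they are joined by paths of linear length of the
Cayley graph in a slightly larger annulus, so oscillations on annuli are bounded by gradients.
-/

set_option autoImplicit false

universe u v

open Metric Set Filter Topology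

namespace Pool.Agent.R524.GR

open Pool.Agent.Y899.EL.Cap

/-- paths of length at most `n` in the Cayley graph inside `P` -/
inductive Conn {G : Type v} [Group G] (P : G → Prop) (S : Finset G) : ℕ → G → G → Prop
  | refl (n : ℕ) (g : G) (h : P g) : Conn P S n g g
  | step (n : ℕ) (g h s : G) (hc : Conn P S n g h) (hs : s ∈ S) (hp : P (h * s)) :
      Conn P S (n + 1) g (h * s)

variable {G : Type v} [Group G]

theorem Conn.mono {P Q : G → Prop} {S : Finset G} (hPQ : ∀ g, P g → Q g) {n : ℕ} {g h : G}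
    (hc : Conn P S n g h) : Conn Q S n g h := by
  induction hc with
  | refl n g h => exact Conn.refl n g (hPQ g h)
  | step n g h s _ hs hp ih => exact Conn.step n g h s ih hs (hPQ _ hp)

theorem Conn.mono_n {P : G → Prop} {S : Finset G} {n : ℕ} {g h : G}
    (hc : Conn P S n g h) : ∀ m, n ≤ m → Conn P S m g h := by
  induction hc with
  | refl n g h => exact fun m _ => Conn.refl m g h
  | step n g h s _ hs hp ih =>
    intro m hm
    obtain ⟨k, rfl⟩ : ∃ k, m = k + 1 := ⟨m - 1, by omega⟩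
    exact Conn.step k g h s (ih k (by omega)) hs hp

theorem Conn.trans {P : G → Prop} {S : Finset G} {n m : ℕ} {g h k : G}
    (h1 : Conn P S n g h) (h2 : Conn P S m h k) : Conn P S (n + m) g k := by
  induction h2 with
  | refl m h hp => exact h1.mono_n _ (by omega)
  | step m h u s _ hs hp ih => exact Conn.step (n + m) g u s (ih h1) hs hp

theorem Conn.left {P : G → Prop} {S : Finset G} {n : ℕ} {g h : G}
    (hc : Conn P S n g h) : P g := by
  induction hc with
  | refl n g h => exact h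
  | step n g h s _ hs hp ih => exact ih

theorem Conn.path {P : G → Prop} {S : Finset G} {n : ℕ} {g h : G}
    (hc : Conn P S n g h) : ∃ (m : ℕ) (x : ℕ → G), m ≤ n ∧ x 0 = g ∧ x m = h ∧
      (∀ i, i ≤ m → P (x i)) ∧ ∀ i, i < m → ∃ s ∈ S, x (i + 1) = x i * s := by
  induction hc with
  | refl n g h => exact ⟨0, fun _ => g, by omega, rfl, rfl, fun _ _ => h, fun i hi => by omega⟩
  | step n g h s _ hs hp ih =>
    obtain ⟨m, x, hm, h0, h1, h2, h3⟩ := ih
    refine ⟨m + 1, fun i => if i ≤ m then x i else h * s, by omega, by simp [h0], by simp, ?_, ?_⟩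
    · intro i hi
      by_cases hi' : i ≤ m
      · simp only [hi', if_true]
        exact h2 i hi'
      · simp only [hi', if_false]
        exact hp
    · intro i hi
      by_cases hi' : i < m
      · have e1 : i ≤ m := by omega
        have e2 : i + 1 ≤ m := by omega
        simp only [e1, e2, if_true]
        exact h3 i hi'
      · have e0 : i = m := by omega
        subst e0
        have e2 : ¬ (i + 1 ≤ i) := by omega
        simp only [le_refl, if_true, e2, if_false]
        exact ⟨s, hs, by rw [h1]⟩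

section Len

variable (l : G → ℝ) (hmul : ∀ g k : G, l (g * k) ≤ l g + l k) (hinv : ∀ g : G, l g⁻¹ = l g)

include hmul hinv in
theorem len_sub (g k : G) : |l (g * k) - l g| ≤ l k := by
  rw [abs_le]
  have h1 := hmul g k
  have h2 := hmul (g * k) k⁻¹
  rw [mul_inv_cancel_right, hinv] at h2
  constructor <;> linarith

include hmul hinv in
/-- every element is joined to its translate by a short path nearby -/
theorem word (S : Finset G) (hS : ∀ s ∈ S, s⁻¹ ∈ S)
    (hgen : Subgroup.closure (S : Set G) = ⊤) (k : G) :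
    ∃ (L : ℕ) (M : ℝ), 0 ≤ M ∧ ∀ g : G, Conn (fun u => |l u - l g| ≤ M) S L g (g * k) := by
  have hk : k ∈ Subgroup.closure (S : Set G) := by rw [hgen]; trivial
  have key : ∀ x y : G, y ∈ S → (∃ (L : ℕ) (M : ℝ), 0 ≤ M ∧
      ∀ g : G, Conn (fun u => |l u - l g| ≤ M) S L g (g * x)) →
      ∃ (L : ℕ) (M : ℝ), 0 ≤ M ∧ ∀ g : G, Conn (fun u => |l u - l g| ≤ M) S L g (g * (x * y)) := by
    rintro x y hy ⟨L, M, hM, h⟩
    refine ⟨L + 1, max M (l (x * y)), le_max_of_le_left hM, fun g => ?_⟩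
    rw [← mul_assoc]
    refine Conn.step L g (g * x) y ((h g).mono fun u hu => hu.trans (le_max_left _ _)) hy ?_
    show |l (g * x * y) - l g| ≤ _
    rw [mul_assoc]
    exact (len_sub l hmul hinv g (x * y)).trans (le_max_right _ _)
  induction hk using Subgroup.closure_induction_right with
  | one => exact ⟨0, 0, le_refl _, fun g => by
      rw [mul_one]; exact Conn.refl 0 g (by simp)⟩
  | mul_right x _ y hy hx => exact key x y hy hx
  | mul_inv_cancel x _ y hy hx => exact key x y⁻¹ (hS y hy) hx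

include hmul hinv in
/-- from walks with bounded steps to simple paths of the Cayley graph -/
theorem paths (hf : ∀ R : ℝ, {g : G | l g ≤ R}.Finite)
    (S : Finset G) (hS : ∀ s ∈ S, s⁻¹ ∈ S)
    (hgen : Subgroup.closure (S : Set G) = ⊤) (D B C : ℝ)
    (hw : ∀ (r : ℝ) (g h : G), 0 ≤ r → r ≤ l g → l g ≤ r + D → r ≤ l h → l h ≤ r + D →
      ∃ (n : ℕ) (x : ℕ → G), (n : ℝ) ≤ C * (r + 1) ∧ x 0 = g ∧ x n = h ∧
      (∀ i, i ≤ n → r - B ≤ l (x i) ∧ l (x i) ≤ r + B) ∧
      ∀ i, i < n → l ((x i)⁻¹ * x (i + 1)) ≤ B) :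
    ∃ B' C' : ℝ, 0 < C' ∧ 0 ≤ B' ∧ ∀ (r : ℝ) (g h : G), 1 ≤ r → r ≤ l g → l g ≤ r + D → r ≤ l h →
      l h ≤ r + D →
      ∃ (m : ℕ) (y : ℕ → G), (m : ℝ) ≤ C' * r ∧ y 0 = g ∧ y m = h ∧
        (∀ i, i ≤ m → r - B' ≤ l (y i) ∧ l (y i) ≤ r + B') ∧
        (∀ i, i < m → ∃ s ∈ S, y (i + 1) = y i * s) ∧ ∀ i j, i < j → j ≤ m → y i ≠ y j := by
  classical
  choose L M hM hW using word l hmul hinv S hS hgen
  set F : Finset G := (hf B).toFinset with hF
  set L' : ℕ := ∑ k ∈ F, L k with hL'
  set M' : ℝ := ∑ k ∈ F, M k with hM'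
  have hM'0 : 0 ≤ M' := Finset.sum_nonneg fun k _ => hM k
  have hword : ∀ g k : G, k ∈ F → Conn (fun u => |l u - l g| ≤ M') S L' g (g * k) := by
    intro g k hk
    have h1 : M k ≤ M' := Finset.single_le_sum (fun k _ => hM k) hk
    have h2 : L k ≤ L' := Finset.single_le_sum (f := L) (fun k _ => Nat.zero_le _) hk
    exact ((hW k g).mono fun u hu => le_trans hu h1).mono_n L' h2
  refine ⟨|B| + M', (L' : ℝ) * (2 * |C|) + 1, by positivity, by positivity,
    fun r g h hr hg1 hg2 hh1 hh2 => ?_⟩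
  obtain ⟨n, x, hn, hx0, hxn, hxa, hxs⟩ := hw r g h (by linarith) hg1 hg2 hh1 hh2
  have hconn : ∀ i, i ≤ n → Conn (fun u => r - (|B| + M') ≤ l u ∧ l u ≤ r + (|B| + M')) S
      (i * L') (x 0) (x i) := by
    intro i
    induction i with
    | zero =>
      intro _
      have h0 := hxa 0 (Nat.zero_le _)
      exact Conn.refl _ _ ⟨by linarith [h0.1, le_abs_self B], by linarith [h0.2, le_abs_self B]⟩
    | succ i ih =>
      intro hi
      have h1 := ih (by omega)
      have h2 := hxa i (by omega)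
      have h3 : (x i)⁻¹ * x (i + 1) ∈ F := by
        rw [hF, Set.Finite.mem_toFinset]
        exact hxs i (by omega)
      have h4 := hword (x i) _ h3
      rw [mul_inv_cancel_left] at h4
      have h5 : Conn (fun u => r - (|B| + M') ≤ l u ∧ l u ≤ r + (|B| + M')) S L'
          (x i) (x (i + 1)) := by
        refine h4.mono fun u hu => ?_
        rw [abs_le] at hu
        constructor
        · linarith [hu.1, h2.1, le_abs_self B]
        · linarith [hu.2, h2.2, le_abs_self B]
      have h6 := h1.trans h5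
      have e : (i + 1) * L' = i * L' + L' := by ring
      rw [e]
      exact h6
  obtain ⟨m, y, hm, hy0, hym, hyP, hyS⟩ := (hconn n le_rfl).path
  obtain ⟨m', z, hm', hz0, hzm, hzP, hzS, hzI⟩ := noloop
    (fun u => r - (|B| + M') ≤ l u ∧ l u ≤ r + (|B| + M')) (fun a b => ∃ s ∈ S, b = a * s) m y
    hyP hyS
  refine ⟨m', z, ?_, by rw [hz0, hy0, hx0], by rw [hzm, hym, hxn], hzP, hzS, hzI⟩
  have h1 : (m' : ℝ) ≤ n * L' := by
    have : m' ≤ n * L' := hm'.trans hm
    exact_mod_cast this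
  have h2 : (n : ℝ) ≤ 2 * |C| * r := by
    calc (n : ℝ) ≤ C * (r + 1) := hn
      _ ≤ |C| * (r + 1) := mul_le_mul_of_nonneg_right (le_abs_self C) (by linarith)
      _ ≤ |C| * (2 * r) := mul_le_mul_of_nonneg_left (by linarith) (abs_nonneg C)
      _ = 2 * |C| * r := by ring
  have hL0 : (0 : ℝ) ≤ L' := Nat.cast_nonneg _
  calc (m' : ℝ) ≤ n * L' := h1
    _ ≤ (2 * |C| * r) * L' := mul_le_mul_of_nonneg_right h2 hL0
    _ ≤ ((L' : ℝ) * (2 * |C|) + 1) * r := by nlinarith

end Len

/-- oscillation and energy along a simple path -/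
theorem path_energy (S : Finset G) (f : G → ℝ) (q : ℝ) (hq : 1 ≤ q) (A : Finset G) (m : ℕ)
    (y : ℕ → G) (hA : ∀ i, i ≤ m → y i ∈ A) (hS : ∀ i, i < m → ∃ s ∈ S, y (i + 1) = y i * s)
    (hinj : ∀ i j, i < j → j ≤ m → y i ≠ y j) :
    |f (y m) - f (y 0)| ^ q ≤ (m : ℝ) ^ (q - 1) * ∑ g ∈ A, ∑ s ∈ S, |f (g * s) - f g| ^ q := by
  classical
  have h1 : f (y m) - f (y 0) = ∑ i ∈ Finset.range m, (f (y (i + 1)) - f (y i)) :=
    (Finset.sum_range_sub (fun i => f (y i)) m).symm
  have h2 : |f (y m) - f (y 0)| ^ q ≤ (∑ i ∈ Finset.range m, |f (y (i + 1)) - f (y i)|) ^ q := by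
    rw [h1]
    exact Real.rpow_le_rpow (abs_nonneg _) (Finset.abs_sum_le_sum_abs _ _) (by linarith)
  have h3 := Real.rpow_sum_le_const_mul_sum_rpow (s := Finset.range m)
    (f := fun i => f (y (i + 1)) - f (y i)) (p := q) hq
  rw [Finset.card_range] at h3
  refine (h2.trans h3).trans ?_
  refine mul_le_mul_of_nonneg_left ?_ (Real.rpow_nonneg (Nat.cast_nonneg _) _)
  have h4 : ∀ i ∈ Finset.range m, |f (y (i + 1)) - f (y i)| ^ q ≤
      ∑ s ∈ S, |f (y i * s) - f (y i)| ^ q := by
    intro i hi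
    obtain ⟨s, hs, he⟩ := hS i (Finset.mem_range.1 hi)
    rw [he]
    exact Finset.single_le_sum (f := fun s => |f (y i * s) - f (y i)| ^ q)
      (fun s _ => Real.rpow_nonneg (abs_nonneg _) _) hs
  refine (Finset.sum_le_sum h4).trans ?_
  have hinj' : Set.InjOn y (Finset.range m : Set ℕ) := by
    intro i hi j hj hij
    have hi' := Finset.mem_range.1 (Finset.mem_coe.1 hi)
    have hj' := Finset.mem_range.1 (Finset.mem_coe.1 hj)
    rcases lt_trichotomy i j with hlt | heq | hgt
    · exact absurd hij (hinj i j hlt hj'.le)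
    · exact heq
    · exact absurd hij.symm (hinj j i hgt hi'.le)
  rw [← Finset.sum_image (s := Finset.range m) (g := y)
    (f := fun g => ∑ s ∈ S, |f (g * s) - f g| ^ q) hinj']
  refine Finset.sum_le_sum_of_subset_of_nonneg ?_
    (fun g _ _ => Finset.sum_nonneg (fun k _ => Real.rpow_nonneg (abs_nonneg _) _))
  intro g hg
  obtain ⟨i, hi, rfl⟩ := Finset.mem_image.1 hg
  exact hA i (Finset.mem_range.1 hi).le

/-- oscillation and gradient along a path -/
theorem path_grad (S : Finset G) (f : G → ℝ) (ε : ℝ) (m : ℕ) (y : ℕ → G)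
    (hS : ∀ i, i < m → ∃ s ∈ S, y (i + 1) = y i * s)
    (hε : ∀ i, i < m → ∀ s ∈ S, |f (y i * s) - f (y i)| ≤ ε) :
    |f (y m) - f (y 0)| ≤ m * ε := by
  have h1 : f (y m) - f (y 0) = ∑ i ∈ Finset.range m, (f (y (i + 1)) - f (y i)) :=
    (Finset.sum_range_sub (fun i => f (y i)) m).symm
  rw [h1]
  refine (Finset.abs_sum_le_sum_abs _ _).trans ?_
  have h2 : ∀ i ∈ Finset.range m, |f (y (i + 1)) - f (y i)| ≤ ε := by
    intro i hi
    obtain ⟨s, hs, he⟩ := hS i (Finset.mem_range.1 hi)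
    rw [he]
    exact hε i (Finset.mem_range.1 hi) s hs
  have h3 := Finset.sum_le_card_nsmul _ _ _ h2
  rw [Finset.card_range, nsmul_eq_mul] at h3
  exact h3

/-- no local maxima and minima except where the function is locally constant -/
def NoExt (S : Finset G) (f : G → ℝ) : Prop := ∀ g : G,
  ((∀ s ∈ S, f (g * s) ≤ f g) → ∀ s ∈ S, f (g * s) = f g) ∧
  ((∀ s ∈ S, f g ≤ f (g * s)) → ∀ s ∈ S, f (g * s) = f g)

/-- high level sets are unbounded and meet every annulus of width `D` -/
theorem level (l : G → ℝ) (hmul : ∀ g k : G, l (g * k) ≤ l g + l k)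
    (hf : ∀ R : ℝ, {g : G | l g ≤ R}.Finite) (S : Finset G)
    (hS : Subgroup.closure (S : Set G) = ⊤) (hSinv : ∀ s ∈ S, s⁻¹ ∈ S)
    (D : ℝ) (hD0 : 0 ≤ D) (hD : ∀ s ∈ S, l s ≤ D) (f : G → ℝ)
    (hext : ∀ g : G, (∀ s ∈ S, f (g * s) ≤ f g) → ∀ s ∈ S, f (g * s) = f g)
    (u₀ v₀ : G) (a : ℝ) (hu : a ≤ f u₀) (hv : f v₀ < a) (r : ℝ) (hr : l u₀ ≤ r) :
    ∃ g : G, r ≤ l g ∧ l g ≤ r + D ∧ a ≤ f g := by
  classical
  by_contra hno
  push Not at hno
  let K : Set G := {g | Relation.ReflTransGen (fun g h => ∃ s ∈ S, h = g * s ∧ a ≤ f h) u₀ g}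
  have hK : ∀ g ∈ K, a ≤ f g ∧ l g < r := by
    intro g hg
    induction hg with
    | refl =>
      refine ⟨hu, ?_⟩
      by_contra h
      push Not at h
      exact absurd hu (not_le.2 (hno u₀ h (by linarith)))
    | @tail b c _ hstep ih =>
      obtain ⟨s, hs, rfl, hc⟩ := hstep
      refine ⟨hc, ?_⟩
      by_contra h
      push Not at h
      have h1 : l (b * s) ≤ l b + D := (hmul b s).trans (by linarith [hD s hs])
      exact absurd hc (not_le.2 (hno _ h (by linarith [ih.2])))
  have hKfin : K.Finite := (hf r).subset fun g hg => (hK g hg).2.le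
  obtain ⟨g₀, hg₀, hmax⟩ := Set.exists_max_image K f hKfin ⟨u₀, Relation.ReflTransGen.refl⟩
  have hstep : ∀ g ∈ K, f g = f g₀ → ∀ s ∈ S, g * s ∈ K ∧ f (g * s) = f g₀ := by
    intro g hg hfg s hs
    have hle : ∀ t ∈ S, f (g * t) ≤ f g := by
      intro t ht
      by_cases h : a ≤ f (g * t)
      · have := hmax (g * t) (Relation.ReflTransGen.tail hg ⟨t, ht, rfl, h⟩)
        linarith
      · linarith [(hK g hg).1]
    have h0 : f (g * s) = f g := hext g hle s hs
    have h1 : f (g * s) = f g₀ := by linarith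
    exact ⟨Relation.ReflTransGen.tail hg ⟨s, hs, rfl, by linarith [(hK g₀ hg₀).1]⟩, h1⟩
  have hall : ∀ h : G, g₀ * h ∈ K ∧ f (g₀ * h) = f g₀ := by
    intro h
    have hh : h ∈ Subgroup.closure (S : Set G) := by rw [hS]; trivial
    induction hh using Subgroup.closure_induction_right with
    | one => rw [mul_one]; exact ⟨hg₀, rfl⟩
    | mul_right x _ y hy hx =>
      rw [← mul_assoc]
      exact hstep _ hx.1 hx.2 y hy
    | mul_inv_cancel x _ y hy hx =>
      rw [← mul_assoc]
      exact hstep _ hx.1 hx.2 y⁻¹ (hSinv y hy)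
  have hfin := hall (g₀⁻¹ * v₀)
  rw [mul_inv_cancel_left] at hfin
  linarith [(hK g₀ hg₀).1]

end Pool.Agent.R524.GR
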