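import Pool.Agent.R524.GR.Core

/-!
# Energy and gradients of functions on CAT(0) groups without rank one isometries (helper524)
-/

set_option autoImplicit false

universe u v

open Metric Set Filter Topology
open Pool.Agent.TH60.FP Pool.Agent.Y34.HB Pool.Agent.Y34.EL

namespace Pool.Agent.R524.GR

/-- the `q`-energy of `f` on the elements of length between `x` and `y` -/
noncomputable def EA {G : Type v} [Group G] (l : G → ℝ) (S : Finset G) (f : G → ℝ) (q x y : ℝ) :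
    ℝ := ∑ᶠ g ∈ {g : G | x ≤ l g ∧ l g ≤ y}, ∑ s ∈ S, |f (g * s) - f g| ^ q

/-- length functions of the kind used here, with their basic properties and short simple paths -/
structure Len {G : Type v} [Group G] (l : G → ℝ) : Prop where
  fin : ∀ R : ℝ, {g : G | l g ≤ R}.Finite
  mul : ∀ g k : G, l (g * k) ≤ l g + l k
  inv : ∀ g : G, l g⁻¹ = l g
  nonneg : ∀ g : G, 0 ≤ l g

theorem EA_eq {G : Type v} [Group G] {l : G → ℝ} (hl : Len l) (S : Finset G) (f : G → ℝ)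
    (q x y : ℝ) : EA l S f q x y =
      ∑ g ∈ Pool.Agent.Y899.EL.Cap.An l hl.fin x y, ∑ s ∈ S, |f (g * s) - f g| ^ q := by
  classical
  unfold EA
  rw [← finsum_mem_coe_finset]
  congr 1
  ext g
  have : (g ∈ {g : G | x ≤ l g ∧ l g ≤ y}) = (g ∈ (↑(Pool.Agent.Y899.EL.Cap.An l hl.fin x y) :
      Set G)) := by
    rw [Finset.mem_coe, Pool.Agent.Y899.EL.Cap.mem_An]
    rfl
  rw [this]

theorem EA_nonneg {G : Type v} [Group G] {l : G → ℝ} (hl : Len l) (S : Finset G) (f : G → ℝ)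
    (q x y : ℝ) : 0 ≤ EA l S f q x y := by
  rw [EA_eq hl]
  exact Finset.sum_nonneg fun g _ => Finset.sum_nonneg fun s _ =>
    Real.rpow_nonneg (abs_nonneg _) _

/-- short simple paths in annuli -/
def Short {G : Type v} [Group G] (l : G → ℝ) (S : Finset G) (D B C : ℝ) : Prop :=
  ∀ (r : ℝ) (g h : G), 1 ≤ r → r ≤ l g → l g ≤ r + D → r ≤ l h → l h ≤ r + D →
      ∃ (m : ℕ) (y : ℕ → G), (m : ℝ) ≤ C * r ∧ y 0 = g ∧ y m = h ∧
        (∀ i, i ≤ m → r - B ≤ l (y i) ∧ l (y i) ≤ r + B) ∧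
        (∀ i, i < m → ∃ s ∈ S, y (i + 1) = y i * s) ∧ ∀ i j, i < j → j ≤ m → y i ≠ y j

theorem osc_grad {G : Type v} [Group G] {l : G → ℝ} {S : Finset G} {D B C : ℝ}
    (hsh : Short l S D B C) (f : G → ℝ) (r ε : ℝ) (hr : 1 ≤ r) (hε0 : 0 ≤ ε)
    (hε : ∀ g : G, r - B ≤ l g → l g ≤ r + B → ∀ s ∈ S, |f (g * s) - f g| ≤ ε) (g h : G)
    (hg : r ≤ l g ∧ l g ≤ r + D) (hh : r ≤ l h ∧ l h ≤ r + D) : |f g - f h| ≤ C * r * ε := by
  obtain ⟨m, y, hm, hy0, hym, hya, hyS, hyi⟩ := hsh r h g hr hh.1 hh.2 hg.1 hg.2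
  have h1 := path_grad S f ε m y hyS fun i hi s hs =>
    hε (y i) (hya i hi.le).1 (hya i hi.le).2 s hs
  rw [hy0, hym] at h1
  exact h1.trans (mul_le_mul_of_nonneg_right hm hε0)

theorem osc_energy {G : Type v} [Group G] {l : G → ℝ} (hl : Len l) {S : Finset G} {D B C : ℝ}
    (hC : 1 ≤ C) (hsh : Short l S D B C) (f : G → ℝ) (q r : ℝ) (hq : 1 ≤ q) (hr : 1 ≤ r) (g h : G)
    (hg : r ≤ l g ∧ l g ≤ r + D) (hh : r ≤ l h ∧ l h ≤ r + D) :
    |f g - f h| ^ q ≤ C ^ q * r ^ (q - 1) * EA l S f q (r - B) (r + B) := by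
  obtain ⟨m, y, hm, hy0, hym, hya, hyS, hyi⟩ := hsh r h g hr hh.1 hh.2 hg.1 hg.2
  have h1 := path_energy S f q hq (Pool.Agent.Y899.EL.Cap.An l hl.fin (r - B) (r + B)) m y
    (fun i hi => by rw [Pool.Agent.Y899.EL.Cap.mem_An]; exact hya i hi) hyS hyi
  rw [hy0, hym, ← EA_eq hl] at h1
  refine h1.trans (mul_le_mul_of_nonneg_right ?_ (EA_nonneg hl S f q _ _))
  have hq1 : 0 ≤ q - 1 := by linarith
  calc (m : ℝ) ^ (q - 1) ≤ (C * r) ^ (q - 1) :=
        Real.rpow_le_rpow (Nat.cast_nonneg _) hm hq1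
    _ = C ^ (q - 1) * r ^ (q - 1) := Real.mul_rpow (by linarith) (by linarith)
    _ ≤ C ^ q * r ^ (q - 1) :=
        mul_le_mul_of_nonneg_right (Real.rpow_le_rpow_of_exponent_le hC (by linarith))
          (Real.rpow_nonneg (by linarith) _)

/-- functions of gradient `o(1 / l)` are asymptotically radial -/
theorem radial {G : Type v} [Group G] {l : G → ℝ} {S : Finset G}
    (hsh : ∀ D : ℝ, 0 ≤ D → ∃ B C : ℝ, 0 ≤ B ∧ 1 ≤ C ∧ Short l S D B C) (f : G → ℝ)
    (hf : ∀ s ∈ S, Tendsto (fun g => l g * |f (g * s) - f g|) cofinite (𝓝 0)) (D ε : ℝ)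
    (hε : 0 < ε) :
    ∃ R : ℝ, ∀ g h : G, R ≤ l g → |l g - l h| ≤ D → |f g - f h| ≤ ε := by
  classical
  obtain ⟨B, C, hB, hC, hs⟩ := hsh (max D 0) (le_max_right _ _)
  have hη : 0 < ε / (2 * C) := by positivity
  -- a radius beyond which the gradient is small
  have h1 : ∀ s ∈ S, ∃ R : ℝ, ∀ g : G, R ≤ l g → l g * |f (g * s) - f g| ≤ ε / (2 * C) := by
    intro s hs'
    have h2 := (hf s hs').eventually (Iio_mem_nhds hη)
    rw [Filter.eventually_cofinite] at h2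
    obtain ⟨M, hM⟩ := (h2.image l).bddAbove
    refine ⟨M + 1, fun g hg => ?_⟩
    by_contra hcon
    push Not at hcon
    have h3 : l g ∈ l '' {x : G | ¬ l x * |f (x * s) - f x| ∈ Iio (ε / (2 * C))} :=
      ⟨g, by simp only [mem_Iio, not_lt, Set.mem_ofPred_eq]; exact hcon.le, rfl⟩
    have := hM h3
    linarith
  have h2 : ∃ R : ℝ, ∀ s ∈ S, ∀ g : G, R ≤ l g → l g * |f (g * s) - f g| ≤ ε / (2 * C) := by
    choose! R hR using h1
    obtain ⟨M, hM⟩ := ((S : Set G).toFinite.image R).bddAbove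
    exact ⟨M, fun s hs' g hg => hR s hs' g ((hM ⟨s, hs', rfl⟩).trans hg)⟩
  obtain ⟨R, hR⟩ := h2
  refine ⟨max (R + B) (2 * B + 1) + |D|, fun g h hg hgh => ?_⟩
  set r := min (l g) (l h) with hr
  have hDm : D ≤ max D 0 := le_max_left _ _
  rw [abs_le] at hgh
  have hD0 : 0 ≤ D := by linarith [hgh.1, hgh.2]
  have habs : |D| = D := abs_of_nonneg hD0
  have hr1 : max (R + B) (2 * B + 1) ≤ r := by
    rw [hr, le_min_iff]
    constructor
    · linarith [abs_nonneg D]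
    · linarith [hgh.2]
  have hrR : R + B ≤ r := (le_max_left _ _).trans hr1
  have hrB : 2 * B + 1 ≤ r := (le_max_right _ _).trans hr1
  have hr0 : 1 ≤ r := by linarith
  have hrg : r ≤ l g := min_le_left _ _
  have hrh : r ≤ l h := min_le_right _ _
  have hg2 : l g ≤ r + max D 0 := by
    rcases min_choice (l g) (l h) with h3 | h3
    · rw [hr, h3]; linarith
    · rw [hr, h3]; linarith [hgh.2]
  have hh2 : l h ≤ r + max D 0 := by
    rcases min_choice (l g) (l h) with h3 | h3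
    · rw [hr, h3]; linarith [hgh.1]
    · rw [hr, h3]; linarith
  have h4 := osc_grad hs f r (ε / (C * r)) hr0 (by positivity) (fun u hu1 _ s hs' => ?_) g h
    ⟨hrg, hg2⟩ ⟨hrh, hh2⟩
  · refine h4.trans (le_of_eq ?_)
    field_simp
  · have h5 := hR s hs' u (by linarith)
    have hlu : 0 < l u := by linarith
    have h6 : |f (u * s) - f u| ≤ ε / (2 * C) / l u := by
      rw [le_div_iff₀ hlu, mul_comm]
      exact h5
    refine h6.trans ?_
    rw [div_div]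
    refine div_le_div_of_nonneg_left hε.le (by positivity) ?_
    nlinarith

/-- functions without local extrema have large gradient and energy in every annulus -/
theorem big {G : Type v} [Group G] {l : G → ℝ} (hl : Len l) {S : Finset G}
    (hS : ∀ s ∈ S, s⁻¹ ∈ S) (hgen : Subgroup.closure (S : Set G) = ⊤)
    (hsh : ∀ D : ℝ, 0 ≤ D → ∃ B C : ℝ, 0 ≤ B ∧ 1 ≤ C ∧ Short l S D B C) (f : G → ℝ)
    (hext : NoExt S f) (hne : ∃ g h, f g ≠ f h) :
    ∃ B κ R₀ : ℝ, 0 ≤ B ∧ 0 < κ ∧ 1 ≤ R₀ ∧ ∀ r : ℝ, R₀ ≤ r →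
      (∃ g : G, ∃ s ∈ S, r - B ≤ l g ∧ l g ≤ r + B ∧ κ / r ≤ |f (g * s) - f g|) ∧
      ∀ q : ℝ, 1 ≤ q → κ ^ q * r ^ (1 - q) ≤ EA l S f q (r - B) (r + B) := by
  classical
  obtain ⟨D, hD0, hD⟩ : ∃ D : ℝ, 0 ≤ D ∧ ∀ s ∈ S, l s ≤ D :=
    ⟨∑ s ∈ S, l s, Finset.sum_nonneg fun s _ => hl.nonneg s,
      fun s hs => Finset.single_le_sum (fun s _ => hl.nonneg s) hs⟩
  obtain ⟨B, C, hB, hC, hs⟩ := hsh D hD0
  obtain ⟨p, p', hpq⟩ : ∃ p p', f p' < f p := by
    obtain ⟨g, h, hgh⟩ := hne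
    rcases lt_or_gt_of_ne hgh with h1 | h1
    · exact ⟨h, g, h1⟩
    · exact ⟨g, h, h1⟩
  have hC0 : 0 < C := by linarith
  set a := (2 * f p + f p') / 3 with ha
  set b := (f p + 2 * f p') / 3 with hb
  have hab : b < a := by rw [ha, hb]; linarith
  have hd : 0 < a - b := by linarith
  have hpair : ∀ r : ℝ, max (max (l p) (l p')) 1 ≤ r → ∃ g h : G, (r ≤ l g ∧ l g ≤ r + D) ∧
      (r ≤ l h ∧ l h ≤ r + D) ∧ a - b ≤ |f g - f h| := by
    intro r hr
    have hr1 : l p ≤ r := ((le_max_left _ _).trans (le_max_left _ _)).trans hr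
    have hr2 : l p' ≤ r := ((le_max_right _ _).trans (le_max_left _ _)).trans hr
    obtain ⟨g, hg1, hg2, hg3⟩ := level l hl.mul hl.fin S hgen hS D hD0 hD f (fun g => (hext g).1)
      p p' a (by rw [ha]; linarith) (by rw [ha]; linarith) r hr1
    obtain ⟨h, hh1, hh2, hh3⟩ := level l hl.mul hl.fin S hgen hS D hD0 hD (fun x => - f x)
      (fun g hg s hs => by
        have := (hext g).2 (fun s hs => by have := hg s hs; linarith) s hs
        simp only [this])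
      p' p (-b) (by rw [hb]; linarith) (by rw [hb]; linarith) r hr2
    refine ⟨g, h, ⟨hg1, hg2⟩, ⟨hh1, hh2⟩, ?_⟩
    have : a - b ≤ f g - f h := by linarith
    exact this.trans (le_abs_self _)
  refine ⟨B, (a - b) / (2 * C), max (max (l p) (l p')) 1, hB, by positivity, le_max_right _ _,
    fun r hr => ?_⟩
  have hr1 : 1 ≤ r := (le_max_right _ _).trans hr
  have hr0 : 0 < r := by linarith
  obtain ⟨g, h, hg, hh, hgh⟩ := hpair r hr
  constructor
  · by_contra hcon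
    push Not at hcon
    have h1 := osc_grad hs f r ((a - b) / (2 * C) / r) hr1 (by positivity)
      (fun u hu1 hu2 s hs' => (hcon u s hs' hu1 hu2).le) g h hg hh
    have h2 : C * r * ((a - b) / (2 * C) / r) = (a - b) / 2 := by field_simp
    rw [h2] at h1
    linarith
  · intro q hq
    have h1 := osc_energy hl hC hs f q r hq hr1 g h hg hh
    have h2 : (a - b) ^ q ≤ |f g - f h| ^ q := Real.rpow_le_rpow hd.le hgh (by linarith)
    have h3 : ((a - b) / (2 * C)) ^ q ≤ ((a - b) / C) ^ q := by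
      refine Real.rpow_le_rpow (by positivity) ?_ (by linarith)
      exact div_le_div_of_nonneg_left hd.le hC0 (by linarith)
    have h4 : ((a - b) / C) ^ q * r ^ (1 - q) ≤ EA l S f q (r - B) (r + B) := by
      rw [Real.div_rpow hd.le hC0.le]
      have h5 : r ^ (1 - q) = (r ^ (q - 1))⁻¹ := by
        rw [← Real.rpow_neg hr0.le]
        congr 1
        ring
      rw [h5, div_mul_eq_mul_div, ← div_eq_mul_inv, div_div, div_le_iff₀
        (mul_pos (Real.rpow_pos_of_pos hr0 _) (Real.rpow_pos_of_pos hC0 _))]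
      calc (a - b) ^ q ≤ _ := h2
        _ ≤ _ := h1
        _ = _ := by ring
    exact (mul_le_mul_of_nonneg_right h3 (Real.rpow_nonneg hr0.le _)).trans h4

/-- energies of disjoint annuli -/
theorem disj {G : Type v} [Group G] {l : G → ℝ} (hl : Len l) (S : Finset G) (f : G → ℝ)
    (q B R : ℝ) (hB : 0 ≤ B) (J : Finset ℕ) (hJ : ∀ j ∈ J, (j : ℝ) * (2 * B + 1) + B ≤ R) :
    ∑ j ∈ J, EA l S f q ((j : ℝ) * (2 * B + 1) - B) ((j : ℝ) * (2 * B + 1) + B) ≤
      EA l S f q 0 R := by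
  classical
  have he : ∀ g : G, 0 ≤ ∑ s ∈ S, |f (g * s) - f g| ^ q :=
    fun g => Finset.sum_nonneg fun s _ => Real.rpow_nonneg (abs_nonneg _) _
  rw [EA_eq hl]
  have hcongr : ∑ j ∈ J, EA l S f q ((j : ℝ) * (2 * B + 1) - B) ((j : ℝ) * (2 * B + 1) + B) =
      ∑ j ∈ J, ∑ g ∈ Pool.Agent.Y899.EL.Cap.An l hl.fin ((j : ℝ) * (2 * B + 1) - B)
        ((j : ℝ) * (2 * B + 1) + B), ∑ s ∈ S, |f (g * s) - f g| ^ q :=
    Finset.sum_congr rfl fun j _ => EA_eq hl S f q _ _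
  rw [hcongr]
  rw [← Finset.sum_biUnion]
  · refine Finset.sum_le_sum_of_subset_of_nonneg ?_ (fun g _ _ => he g)
    intro g hg
    obtain ⟨j, hj, hg⟩ := Finset.mem_biUnion.1 hg
    rw [Pool.Agent.Y899.EL.Cap.mem_An] at hg ⊢
    exact ⟨hl.nonneg g, hg.2.trans (hJ j hj)⟩
  · intro i _ j _ hij
    have key : ∀ i j : ℕ, i < j → Disjoint
        (Pool.Agent.Y899.EL.Cap.An l hl.fin ((i : ℝ) * (2 * B + 1) - B)
          ((i : ℝ) * (2 * B + 1) + B))
        (Pool.Agent.Y899.EL.Cap.An l hl.fin ((j : ℝ) * (2 * B + 1) - B)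
          ((j : ℝ) * (2 * B + 1) + B)) := by
      intro i j hlt
      rw [Finset.disjoint_left]
      intro g hg hg'
      rw [Pool.Agent.Y899.EL.Cap.mem_An] at hg hg'
      have h2 : (i : ℝ) + 1 ≤ j := by exact_mod_cast hlt
      have h3 : ((i : ℝ) + 1) * (2 * B + 1) ≤ j * (2 * B + 1) :=
        mul_le_mul_of_nonneg_right h2 (by linarith)
      nlinarith [hg.2, hg'.1]
    rcases lt_or_gt_of_ne hij with hlt | hgt
    · exact key i j hlt
    · exact (key j i hgt).symm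

/-- energy on balls -/
theorem ball_log {G : Type v} [Group G] {l : G → ℝ} (hl : Len l) (S : Finset G) (f : G → ℝ)
    (B κ R₀ : ℝ) (hB : 0 ≤ B) (hκ : 0 < κ) (hR₀ : 1 ≤ R₀)
    (hbig : ∀ r : ℝ, R₀ ≤ r → ∀ q : ℝ, 1 ≤ q → κ ^ q * r ^ (1 - q) ≤ EA l S f q (r - B) (r + B))
    (q : ℝ) (hq : 1 ≤ q) (hq2 : q ≤ 2) :
    ∃ κ' R₁ : ℝ, 0 < κ' ∧ ∀ R : ℝ, R₁ ≤ R → κ' * Real.log R ≤ EA l S f q 0 R := by
  refine Pool.Agent.Y899.EL.Cap.logsum (fun R => EA l S f q 0 R) (κ ^ q) (2 * B + 1) B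
    ⌈R₀⌉₊ (Real.rpow_pos_of_pos hκ _) (by linarith) (fun R J hJ => ?_)
  refine le_trans ?_ (disj hl S f q B R hB (Finset.Ico ⌈R₀⌉₊ (J + 1)) ?_)
  · refine Finset.sum_le_sum fun j hj => ?_
    have hj1 : ((⌈R₀⌉₊ : ℕ) : ℝ) ≤ j := Nat.cast_le.2 (Finset.mem_Ico.1 hj).1
    have hj2 := Nat.le_ceil R₀
    have hj3 : (0 : ℝ) ≤ (j : ℝ) := Nat.cast_nonneg j
    have hr : R₀ ≤ (j : ℝ) * (2 * B + 1) := by nlinarith
    refine le_trans ?_ (hbig _ hr q hq)
    rw [div_eq_mul_inv]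
    refine mul_le_mul_of_nonneg_left ?_ (Real.rpow_nonneg hκ.le _)
    set r := (j : ℝ) * (2 * B + 1) with hrdef
    have hr1 : 1 ≤ r := hR₀.trans hr
    calc (r + 1)⁻¹ ≤ r⁻¹ := inv_anti₀ (by linarith) (by linarith)
      _ = r ^ (-1 : ℝ) := (Real.rpow_neg_one r).symm
      _ ≤ r ^ (1 - q) := Real.rpow_le_rpow_of_exponent_le hr1 (by linarith)
  · intro j hj
    have h1 : (j : ℝ) ≤ J := Nat.cast_le.2 (by have := (Finset.mem_Ico.1 hj).2; omega)
    have h2 : (j : ℝ) * (2 * B + 1) ≤ J * (2 * B + 1) :=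
      mul_le_mul_of_nonneg_right h1 (by linarith)
    linarith

/-- polynomial growth of the energies of exponent below two -/
theorem ball_pow {G : Type v} [Group G] {l : G → ℝ} (hl : Len l) (S : Finset G) (f : G → ℝ)
    (B κ R₀ : ℝ) (hB : 0 ≤ B) (hκ : 0 < κ) (hR₀ : 1 ≤ R₀)
    (hbig : ∀ r : ℝ, R₀ ≤ r → ∀ q : ℝ, 1 ≤ q → κ ^ q * r ^ (1 - q) ≤ EA l S f q (r - B) (r + B))
    (q : ℝ) (hq : 1 ≤ q) :
    ∃ κ' R₁ : ℝ, 0 < κ' ∧ ∀ R : ℝ, R₁ ≤ R → κ' * R ^ (2 - q) ≤ EA l S f q 0 R := by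
  have hΛ : 0 < 2 * B + 1 := by linarith
  refine ⟨κ ^ q / (4 * (2 * B + 1)), 4 * (R₀ + 1) * (2 * B + 1), by positivity, fun R hR => ?_⟩
  have hR1 : 1 ≤ R := by nlinarith
  have hR0 : 0 < R := by linarith
  have hRB : 4 * (2 * B + 1) ≤ R := by nlinarith
  -- the indices
  set a : ℕ := ⌈R / (2 * (2 * B + 1))⌉₊ with ha
  set b : ℕ := ⌊(R - B) / (2 * B + 1)⌋₊ with hb
  have hq0 : 0 ≤ (R - B) / (2 * B + 1) := div_nonneg (by linarith) hΛ.le
  have ha1 : R / (2 * (2 * B + 1)) ≤ a := Nat.le_ceil _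
  have ha2 : (a : ℝ) < R / (2 * (2 * B + 1)) + 1 := Nat.ceil_lt_add_one (by positivity)
  have hb1 : (b : ℝ) ≤ (R - B) / (2 * B + 1) := Nat.floor_le hq0
  have hb2 : (R - B) / (2 * B + 1) < b + 1 := Nat.lt_floor_add_one _
  have h1 := disj hl S f q B R hB (Finset.Ico a (b + 1)) (fun j hj => by
    have h2 : (j : ℝ) ≤ b := Nat.cast_le.2 (by have := (Finset.mem_Ico.1 hj).2; omega)
    have h3 : (j : ℝ) ≤ (R - B) / (2 * B + 1) := h2.trans hb1
    rw [le_div_iff₀ hΛ] at h3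
    linarith)
  refine le_trans ?_ h1
  have h4 : ∀ j ∈ Finset.Ico a (b + 1), κ ^ q * R ^ (1 - q) ≤
      EA l S f q ((j : ℝ) * (2 * B + 1) - B) ((j : ℝ) * (2 * B + 1) + B) := by
    intro j hj
    have hj1 : (a : ℝ) ≤ j := Nat.cast_le.2 (Finset.mem_Ico.1 hj).1
    have h2 : (j : ℝ) ≤ b := Nat.cast_le.2 (by have := (Finset.mem_Ico.1 hj).2; omega)
    have h3 : (j : ℝ) ≤ (R - B) / (2 * B + 1) := h2.trans hb1
    rw [le_div_iff₀ hΛ] at h3
    have h5 : R / 2 ≤ (j : ℝ) * (2 * B + 1) := by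
      have := ha1.trans hj1
      rw [div_le_iff₀ (by positivity)] at this
      linarith
    have h6 : R₀ ≤ (j : ℝ) * (2 * B + 1) := by nlinarith
    refine le_trans ?_ (hbig _ h6 q hq)
    refine mul_le_mul_of_nonneg_left ?_ (Real.rpow_nonneg hκ.le _)
    exact Real.rpow_le_rpow_of_nonpos (by linarith) (by linarith) (by linarith)
  have h5 := Finset.card_nsmul_le_sum _ _ _ h4
  refine le_trans ?_ h5
  rw [Nat.card_Ico, nsmul_eq_mul]
  have hab : R / (4 * (2 * B + 1)) ≤ ((b + 1 - a : ℕ) : ℝ) := by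
    have h6 : ((b : ℝ) + 1 - a) ≤ ((b + 1 - a : ℕ) : ℝ) := by
      have h7 : (b + 1 : ℕ) ≤ (b + 1 - a) + a := by omega
      have h8 : ((b + 1 : ℕ) : ℝ) ≤ (((b + 1 - a) + a : ℕ) : ℝ) := Nat.cast_le.2 h7
      push_cast at h8 ⊢
      linarith
    refine le_trans ?_ h6
    have h9 : R / (2 * (2 * B + 1)) = 2 * (R / (4 * (2 * B + 1))) := by field_simp; ring
    have h10 : (R - B) / (2 * B + 1) = 4 * (R / (4 * (2 * B + 1))) - B / (2 * B + 1) := by
      field_simp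
    have h11 : B / (2 * B + 1) ≤ 1 / 2 := by
      rw [div_le_div_iff₀ hΛ (by norm_num)]
      linarith
    have h12 : 1 ≤ R / (4 * (2 * B + 1)) := by
      rw [le_div_iff₀ (by positivity)]
      linarith
    have h13 : 2 ≤ R / (4 * (2 * B + 1)) := by
      rw [le_div_iff₀ (by positivity)]
      nlinarith
    nlinarith
  have hRq : R ^ (2 - q) = R * R ^ (1 - q) := by
    rw [show (2 - q) = 1 + (1 - q) by ring, Real.rpow_add hR0, Real.rpow_one]
  rw [hRq]
  have hpos : 0 ≤ κ ^ q * R ^ (1 - q) :=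
    mul_nonneg (Real.rpow_nonneg hκ.le _) (Real.rpow_nonneg hR0.le _)
  calc κ ^ q / (4 * (2 * B + 1)) * (R * R ^ (1 - q))
      = R / (4 * (2 * B + 1)) * (κ ^ q * R ^ (1 - q)) := by ring
    _ ≤ _ := mul_le_mul_of_nonneg_right hab hpos

/-- the length function of a geometric action -/
theorem len_geo {X : Type u} [MetricSpace X] {G : Type v} [Group G] [MulAction G X]
    (hG : Geo X G) (o : X) : Len (fun g : G => dist o (g • o)) := by
  have _ := hG.proper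
  have _ := hG.isom
  have _ := hG.disc
  refine ⟨Pool.Agent.Y528.EL.ball_finite hG o, fun g k => ?_, fun g => ?_, fun g => dist_nonneg⟩
  · have h1 := dist_triangle o (g • o) ((g * k) • o)
    rw [mul_smul, dist_smul] at h1
    rw [mul_smul]
    exact h1
  · show dist o (g⁻¹ • o) = dist o (g • o)
    rw [← dist_smul g o (g⁻¹ • o), smul_inv_smul, dist_comm]

/-- short paths in the absence of rank one isometries -/
theorem short_geo {X : Type u} [MetricSpace X] {G : Type v} [Group G] [MulAction G X]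
    (hG : Geo X G) (hGC : GC X) (hno : ∀ g : G, ¬ RankOne X g) (o : X)
    (S : Finset G) (hS : ∀ s ∈ S, s⁻¹ ∈ S) (hgen : Subgroup.closure (S : Set G) = ⊤)
    (D : ℝ) (hD : 0 ≤ D) :
    ∃ B C : ℝ, 0 ≤ B ∧ 1 ≤ C ∧ Short (fun g : G => dist o (g • o)) S D B C := by
  obtain ⟨B, C, hW⟩ := Pool.Agent.Y914.EL.t_WLK X G hG hGC o 42
    (fun c c' hc hc' => linked hG hno o c c' hc hc') D hD
  have hl := len_geo hG o
  obtain ⟨B', C', hC', hB', h⟩ := paths (fun g : G => dist o (g • o)) hl.mul hl.inv hl.fin S hS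
    hgen D B C hW
  refine ⟨B', max C' 1, hB', le_max_right _ _, fun r g k hr hg1 hg2 hk1 hk2 => ?_⟩
  obtain ⟨m, y, hm, hrest⟩ := h r g k hr hg1 hg2 hk1 hk2
  exact ⟨m, y, hm.trans (mul_le_mul_of_nonneg_right (le_max_left _ _) (by linarith)), hrest⟩

/-- solutions of weighted `p`-Laplace equations have no local extrema -/
theorem noExt_harm {G : Type v} [Group G] (S : Finset G) (f : G → ℝ) (p : ℝ) (c : G → G → ℝ)
    (hc : ∀ g, ∀ s ∈ S, 0 < c g s)
    (hf : ∀ g, ∑ s ∈ S, c g s * (|f (g * s) - f g| ^ (p - 2) * (f (g * s) - f g)) = 0) :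
    NoExt S f := by
  intro g
  have key : ∀ s ∈ S, c g s * (|f (g * s) - f g| ^ (p - 2) * (f (g * s) - f g)) = 0 →
      f (g * s) = f g := by
    intro s hs h
    rcases mul_eq_zero.1 h with h1 | h1
    · exact absurd h1 (hc g s hs).ne'
    · rcases mul_eq_zero.1 h1 with h2 | h2
      · by_contra hne
        have : 0 < |f (g * s) - f g| := abs_pos.2 (sub_ne_zero.2 hne)
        exact absurd h2 (Real.rpow_pos_of_pos this _).ne'
      · linarith
  constructor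
  · intro hle s hs
    have h1 : ∀ t ∈ S, c g t * (|f (g * t) - f g| ^ (p - 2) * (f (g * t) - f g)) ≤ 0 := by
      intro t ht
      refine mul_nonpos_of_nonneg_of_nonpos (hc g t ht).le
        (mul_nonpos_of_nonneg_of_nonpos (Real.rpow_nonneg (abs_nonneg _) _) ?_)
      linarith [hle t ht]
    exact key s hs ((Finset.sum_eq_zero_iff_of_nonpos h1).1 (hf g) s hs)
  · intro hle s hs
    have h1 : ∀ t ∈ S, 0 ≤ c g t * (|f (g * t) - f g| ^ (p - 2) * (f (g * t) - f g)) := by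
      intro t ht
      refine mul_nonneg (hc g t ht).le (mul_nonneg (Real.rpow_nonneg (abs_nonneg _) _) ?_)
      linarith [hle t ht]
    exact key s hs ((Finset.sum_eq_zero_iff_of_nonneg h1).1 (hf g) s hs)

end Pool.Agent.R524.GR
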